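import Pool.Agent.H24.UG.T9
import Pool.Agent.H78.AG.ER1

/-!
UNIFORM LOCAL GAP (`MP_c59857_nt`), row UR1: ergodic components of the symbolic system.
-/

set_option autoImplicit false

open MeasureTheory ProbabilityTheory Filter Topology Finset
open scoped Nat ENNReal

namespace Pool.Agent.H6.UG

open Pool.Agent.H24.UG
open Pool.Agent.H67.AG (Inv)
open Pool.Agent.H80.AG (sg)
open Pool.Agent.H78.AG (er1G er1G_countable er1G_mp er1_ergodic)

theorem meas_FC (Q : ℕ) [NeZero Q] (w i : ℕ) : MeasurableSet (FC Q w i) := by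
  have h : ∀ t : ℤ, Measurable fun ω : Om Q => (ω.2.2 t).1 (w, i) := fun t =>
    (measurable_pi_apply (w, i)).comp (measurable_fst.comp
      ((measurable_pi_apply t).comp (measurable_snd.comp measurable_snd)))
  exact (measurableSet_eq_fun (h 0) (h 1)).compl

theorem meas_SC (Q : ℕ) [NeZero Q] (p : ℕ) : MeasurableSet (SC Q p) := by
  have h : ∀ t : ℤ, Measurable fun ω : Om Q => (ω.2.2 t).2 p := fun t =>
    (measurable_pi_apply p).comp (measurable_snd.comp
      ((measurable_pi_apply t).comp (measurable_snd.comp measurable_snd)))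
  exact (measurableSet_eq_fun (h 0) (h 1)).compl

theorem ae_null {Ω : Type} [MeasurableSpace Ω] (P : Measure Ω) (κ : Kernel Ω Ω)
    (hB : ∀ B, MeasurableSet B → P B = ∫⁻ ω, κ ω B ∂P) (B : Set Ω) (hm : MeasurableSet B)
    (h0 : P B = 0) : ∀ᵐ ω ∂P, κ ω B = 0 := by
  rw [hB B hm, lintegral_eq_zero_iff (κ.measurable_coe hm)] at h0
  exact h0

theorem pf_UR1 (hM : Pool.Agent.H80.AG.T_MRC) : T_UR1 := by
  intro Q n _ β c δ η m P hS
  have := hS.prob
  obtain ⟨κ, hκ, hB, hae⟩ := Pool.Agent.H84.B.erg (Om Q) P (er1G (shM Q)) hS.prob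
    (er1G_countable _) ⟨0, by simp; rfl⟩
    (by
      rintro g ⟨a, ha⟩ h ⟨b, hb⟩
      refine ⟨b + a, ?_⟩
      rw [zpow_add, ← ha, ← hb]
      rfl)
    (by
      rintro g ⟨a, ha⟩
      refine ⟨-a, ?_⟩
      rw [zpow_neg, ← ha]
      rfl)
    (fun g hg => er1G_mp (shM Q) P hS.inv g hg)
  have := hκ
  refine ⟨κ, hκ, hB, ?_⟩
  have hmp : ∀ᵐ ω ∂P, MeasurePreserving (shM Q) (κ ω) (κ ω) := by
    filter_upwards [hae] with ω hω
    exact hω.1 (shM Q) ⟨1, by simp⟩
  have hDm : Measurable (DD Q) := by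
    have h1 : Measurable fun ω : Om Q => ω.1 0 := (measurable_pi_apply 0).comp measurable_fst
    exact (measurable_of_countable sg).comp h1
  have hD1 : ∀ ω : Om Q, DD Q ω = 1 ∨ DD Q ω = -1 := by
    intro ω
    unfold DD sg
    cases ω.1 0 <;> simp
  have hall : ∀ᵐ ω ∂P, ∀ W : ℕ, 0 < W → (κ ω)[DD Q | Inv (shM Q) W] =ᵐ[κ ω] 0 := by
    rw [ae_all_iff]
    intro W
    by_cases hW : 0 < W
    · filter_upwards [hM (Om Q) P (shM Q) κ (DD Q) W hDm hD1 hW hB hmp (hS.mr W hW)] with ω hω _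
      exact hω
    · exact Filter.Eventually.of_forall fun ω h => absurd h hW
  have hFC : ∀ᵐ ω ∂P, ∀ w i : ℕ, κ ω (FC Q w i) = 0 := by
    rw [ae_all_iff]
    intro w
    rw [ae_all_iff]
    intro i
    exact ae_null P κ hB _ (meas_FC Q w i) (hS.flag w i)
  have hSC : ∀ᵐ ω ∂P, ∀ p : ℕ, p.Prime → p ≡ 1 [MOD Q] → κ ω (SC Q p) = 0 := by
    rw [ae_all_iff]
    intro p
    by_cases hp : p.Prime ∧ p ≡ 1 [MOD Q]
    · filter_upwards [ae_null P κ hB _ (meas_SC Q p) (hS.sign p hp.1 hp.2)] with ω hω _ _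
      exact hω
    · exact Filter.Eventually.of_forall fun ω h1 h2 => absurd ⟨h1, h2⟩ hp
  filter_upwards [hae, hall, hFC, hSC] with ω h1 h2 h3 h4
  exact ⟨er1_ergodic (shM Q) (κ ω) h1.1 h1.2, h2, h3, h4⟩

end Pool.Agent.H6.UG
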